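import Pool.Agent.R529.FT.PairSum

/-!
Upper bounds for pairs of primes `m P + h`, `m P + h'`, for moduli `P` which may have prime factors
larger than the sieving range.
-/

set_option autoImplicit false

namespace Pool.Agent.R529.LG

open Finset Filter
open Pool.Agent.W41 (JJ JJ_small)
open Pool.Agent.Y835.SC (V V_pos V_le_one V_anti V_primeFactors big_card)
open Pool.Agent.R529.FT (one_sol V_up0 err_le exp_big ex_w log_sum)

theorem sum_split {D P y : ℕ} (hD : 1 ≤ D) (hP : 1 ≤ P) :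
    ∑ p ∈ (D * P).primeFactors.filter (fun p => y < p), (1 : ℝ) / p ≤
      ∑ p ∈ D.primeFactors.filter (fun p => y < p), (1 : ℝ) / p +
      ∑ p ∈ P.primeFactors.filter (fun p => y < p), (1 : ℝ) / p := by
  rw [Nat.primeFactors_mul (by omega) (by omega), filter_union, ← sum_union_inter]
  have : 0 ≤ ∑ p ∈ D.primeFactors.filter (fun p => y < p) ∩ P.primeFactors.filter (fun p => y < p),
    (1 : ℝ) / p := sum_nonneg fun _ _ => by positivity
  linarith

theorem V_upD : ∃ C : ℝ, 0 < C ∧ ∀ y w : ℕ, 4 ≤ y → y ≤ w → ∀ D P : ℕ, 1 ≤ D → D ≤ y ^ 2 → 1 ≤ P →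
    ∑ p ∈ P.primeFactors.filter (fun p => y < p), (1 : ℝ) / p ≤ 1 / 2 →
    V ((Ioc y w).filter (fun p => p.Prime ∧ ¬ p ∣ D * P)) ≤ C * (Real.log y / Real.log w) := by
  obtain ⟨C, hC0, hC⟩ := V_up0
  refine ⟨C, hC0, fun y w hy hyw D P hD hDy hP hPs => hC y w (by omega) hyw (D * P)
    (Nat.one_le_iff_ne_zero.2 (by positivity)) ?_⟩
  refine (sum_split hD hP).trans ?_
  have hly : 0 < Real.log y := Real.log_pos (by exact_mod_cast (by omega : 1 < y))
  have hy0 : (0 : ℝ) < y := by exact_mod_cast (by omega : 0 < y)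
  have h5 := big_card (q := D) (y := y) (by omega)
  have h6 : Real.log D ≤ 2 * Real.log y := by
    rw [← Real.log_rpow hy0, Real.rpow_two]
    exact Real.log_le_log (by exact_mod_cast hD) (by exact_mod_cast hDy)
  have h7 : ((D.primeFactors.filter (fun p => y < p)).card : ℝ) ≤ 2 :=
    le_of_mul_le_mul_right (h5.trans h6) hly
  have h8 : ∑ p ∈ D.primeFactors.filter (fun p => y < p), (1 : ℝ) / p ≤ 1 / 2 := by
    refine (sum_le_card_nsmul _ _ (1 / (y : ℝ)) fun p hp => ?_).trans ?_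
    · exact one_div_le_one_div_of_le hy0 (by exact_mod_cast (mem_filter.1 hp).2.le)
    · rw [nsmul_eq_mul]
      have h8 : 1 / (y : ℝ) ≤ 1 / 4 := one_div_le_one_div_of_le (by norm_num) (by exact_mod_cast hy)
      have h9 : 0 ≤ 1 / (y : ℝ) := by positivity
      nlinarith
  linarith

open Classical in
theorem pair_sieve : ∃ (E : ℕ) (C : ℝ) (w0 : ℕ), 1 ≤ E ∧ 0 < C ∧ ∀ y w X P h h' : ℕ, w0 ≤ w →
    4 ≤ y → y ≤ w → w ^ E ≤ X → 1 ≤ P →
    ∑ p ∈ P.primeFactors.filter (fun p => y < p), (1 : ℝ) / p ≤ 1 / 2 → h ≠ h' →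
    h ≤ h' + y ^ 2 → h' ≤ h + y ^ 2 →
    (((Icc 1 X).filter (fun m => ∀ p : ℕ, p.Prime → y < p → p ≤ w → ¬ p ∣ P →
      ¬ p ∣ m * P + h ∧ ¬ p ∣ m * P + h')).card : ℝ) ≤
      C * (X * (Real.log y / Real.log w) ^ 2) := by
  obtain ⟨C0, K0, hC0, hK0, HF⟩ := Pool.Agent.TH892.SW.fl_set 2
  obtain ⟨C, hC, HV⟩ := V_upD
  refine ⟨4 * (C0 * C0) + 6, 2 * C ^ 2 + 1, max K0 5, by omega, by positivity, ?_⟩
  intro y w X P h h' hw hy hyw hX hP1 hPs hne hh hh'
  have hwK : K0 ≤ w := (le_max_left _ _).trans hw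
  have hw5 : 5 ≤ w := (le_max_right _ _).trans hw
  obtain ⟨D, hD⟩ : ∃ D : ℕ, D = max h h' - min h h' := ⟨_, rfl⟩
  have hD1 : 1 ≤ D := by omega
  have hDy : D ≤ y ^ 2 := by omega
  obtain ⟨Q, hQ⟩ : ∃ Q : Finset ℕ, Q = (Ioc y w).filter (fun p => p.Prime ∧ ¬ p ∣ D * P) := ⟨_, rfl⟩
  have hQp : ∀ p ∈ Q, p.Prime ∧ y < p ∧ p ≤ w ∧ ¬ p ∣ D ∧ ¬ p ∣ P := fun p hp => by
    rw [hQ, mem_filter, mem_Ioc] at hp
    exact ⟨hp.2.1, hp.1.1, hp.1.2, fun hd => hp.2.2 (hd.mul_right P), fun hd => hp.2.2 (hd.mul_left D)⟩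
  obtain ⟨R, hR⟩ : ∃ R : ℕ → ℕ → Prop, ∀ p a, R p a ↔ (p ∣ a * P + h ∨ p ∣ a * P + h') :=
    ⟨_, fun _ _ => Iff.rfl⟩
  have hcard : ∀ p ∈ Q, ((range p).filter (fun a => R p a)).card = 2 := by
    intro p hp
    obtain ⟨hpp, hyp, hpw, hpD, hpP⟩ := hQp p hp
    obtain ⟨a0, ha0, h1⟩ := one_sol hpp hpP h
    obtain ⟨a1, ha1, h2⟩ := one_sol hpp hpP h'
    have hne' : a0 ≠ a1 := by
      intro he
      have h3 := (h1 a0 ha0).2 rfl
      have h4 := (h2 a0 ha0).2 he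
      apply hpD
      rw [hD]
      rcases le_total h h' with h5 | h5
      · rw [max_eq_right h5, min_eq_left h5]
        have h6 := (Nat.dvd_sub h4 h3)
        rwa [Nat.add_sub_add_left] at h6
      · rw [max_eq_left h5, min_eq_right h5]
        have h6 := (Nat.dvd_sub h3 h4)
        rwa [Nat.add_sub_add_left] at h6
    have h3 : (range p).filter (fun a => R p a) = {a0, a1} := by
      ext a
      rw [mem_filter, mem_range, mem_insert, mem_singleton, hR]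
      constructor
      · rintro ⟨ha, h4 | h4⟩
        · exact Or.inl ((h1 a ha).1 h4)
        · exact Or.inr ((h2 a ha).1 h4)
      · rintro (h4 | h4)
        · rw [h4]
          exact ⟨ha0, Or.inl ((h1 a0 ha0).2 rfl)⟩
        · rw [h4]
          exact ⟨ha1, Or.inr ((h2 a1 ha1).2 rfl)⟩
    rw [h3, card_pair hne']
  have h1 := HF C0 le_rfl w (by omega) X Q R (fun p hp => by
    obtain ⟨hpp, hyp, hpw, hpD, hpP⟩ := hQp p hp
    exact ⟨hpp, hpw, (hcard p hp).le⟩)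
  have h2 := (abs_le.1 h1).2
  have h3 := err_le C0 C0 K0 w y X hwK hw5 (by omega) hX hyw
  have h4 : ∏ p ∈ Q, (1 - (((range p).filter (fun a => R p a)).card : ℝ) / p) ≤ (V Q) ^ 2 := by
    unfold V
    rw [← prod_pow]
    refine prod_le_prod (fun p hp => ?_) fun p hp => ?_
    · rw [hcard p hp]
      have h5 : (2 : ℝ) ≤ p := by exact_mod_cast (hQp p hp).1.two_le
      rw [sub_nonneg]
      push_cast
      rw [div_le_one (by linarith)]
      exact h5
    · rw [hcard p hp]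
      push_cast
      have h5 : (0 : ℝ) ≤ (1 / (p : ℝ)) ^ 2 := by positivity
      have h6 : (2 : ℝ) / p = 2 * (1 / (p : ℝ)) := by ring
      rw [h6]
      nlinarith
  have h5 : V Q ≤ C * (Real.log y / Real.log w) := by
    rw [hQ]; exact HV y w hy hyw D P hD1 hDy hP1 hPs
  have h6 : 0 < V Q := V_pos fun p hp => (hQp p hp).1
  have h7 : (V Q) ^ 2 ≤ C ^ 2 * (Real.log y / Real.log w) ^ 2 := by
    rw [← mul_pow]
    exact pow_le_pow_left₀ h6.le h5 2
  have h8 : (0 : ℝ) ≤ X := Nat.cast_nonneg X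
  have h9 : (1 / 2 : ℝ) ^ C0 ≤ 1 := pow_le_one₀ (by norm_num) (by norm_num)
  obtain ⟨Z, hZ⟩ : ∃ Z : ℝ, Z = ∏ p ∈ Q, (1 - (((range p).filter
    (fun a => R p a)).card : ℝ) / p) := ⟨_, rfl⟩
  have hZ0 : 0 ≤ Z := by
    rw [hZ]
    refine prod_nonneg fun p hp => ?_
    rw [hcard p hp, sub_nonneg]
    have h5 : (2 : ℝ) ≤ p := by exact_mod_cast (hQp p hp).1.two_le
    push_cast
    rw [div_le_one (by linarith)]
    exact h5
  rw [← hZ] at h2 h4
  have h10 : (((Icc 1 X).filter (fun m => ∀ p : ℕ, p.Prime → y < p → p ≤ w → ¬ p ∣ P →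
      ¬ p ∣ m * P + h ∧ ¬ p ∣ m * P + h')).card : ℝ) ≤
      (((Icc 1 X).filter (fun n => ∀ p ∈ Q, ¬ R p (n % p))).card : ℝ) := by
    refine Nat.cast_le.2 (card_le_card fun m hm => ?_)
    rw [mem_filter] at hm ⊢
    refine ⟨hm.1, fun p hp hc => ?_⟩
    obtain ⟨hpp, hyp, hpw, hpD, hpP⟩ := hQp p hp
    have h11 := hm.2 p hpp hyp hpw hpP
    rw [hR] at hc
    have h12 : ∀ g : ℕ, (p ∣ m % p * P + g ↔ p ∣ m * P + g) := by
      intro g
      have h13 : m % p * P + g ≡ m * P + g [MOD p] :=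
        ((Nat.mod_modEq m p).mul_right P).add_right g
      exact ⟨fun h => (Nat.modEq_zero_iff_dvd.1 (h13.symm.trans (Nat.modEq_zero_iff_dvd.2 h))),
        fun h => (Nat.modEq_zero_iff_dvd.1 (h13.trans (Nat.modEq_zero_iff_dvd.2 h)))⟩
    rcases hc with hc | hc
    · exact h11.1 ((h12 h).1 hc)
    · exact h11.2 ((h12 h').1 hc)
  have h11 : (X : ℝ) * Z ≤ X * (C ^ 2 * (Real.log y / Real.log w) ^ 2) :=
    mul_le_mul_of_nonneg_left (h4.trans h7) h8
  have h12 : (1 / 2 : ℝ) ^ C0 * (X * Z) ≤ 1 * (X * Z) :=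
    mul_le_mul_of_nonneg_right h9 (by positivity)
  have h13 : (((Icc 1 X).filter (fun n => ∀ p ∈ Q, ¬ R p (n % p))).card : ℝ) ≤
      2 * (X * Z) + X * (Real.log y / Real.log w) ^ 2 := by
    have h14 := h2
    linarith
  calc _ ≤ _ := h10
    _ ≤ _ := h13
    _ ≤ 2 * (X * (C ^ 2 * (Real.log y / Real.log w) ^ 2)) + X * (Real.log y / Real.log w) ^ 2 := by
        linarith
    _ = _ := by ring

open Classical in
theorem pair_sum (K : ℕ) (hK : 1 ≤ K) : ∃ (C : ℝ) (z0 : ℕ), 0 < C ∧ ∀ z y P h h' : ℕ, z0 ≤ z →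
    4 ≤ y → (y : ℝ) ≤ Real.log z → P ^ 16 ≤ z → 0 < P →
    ∑ p ∈ P.primeFactors.filter (fun p => y < p), (1 : ℝ) / p ≤ 1 / 2 →
    h ≠ h' → h ≤ h' + y ^ 2 → h' ≤ h + y ^ 2 →
    ∑ m ∈ (Icc 1 (z ^ K)).filter (fun m => z < m * P ∧ (m * P + h).Prime ∧ (m * P + h').Prime),
      1 / (m : ℝ) ≤ C * (Real.log y ^ 2 / Real.log z) := by
  obtain ⟨E, C2, w0, hE, hC2, HS⟩ := pair_sieve
  obtain ⟨Y1, hY1, HW⟩ := ex_w (4 * E) (max w0 2) (by omega)
  have hE0 : (0 : ℝ) < E := by exact_mod_cast hE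
  have hK0 : (1 : ℝ) ≤ K := by exact_mod_cast hK
  obtain ⟨z2, hz2⟩ := eventually_atTop.1 ((Real.tendsto_log_atTop.comp
    tendsto_natCast_atTop_atTop).eventually (exp_big (2 * (4 * E : ℕ)) (by positivity)))
  refine ⟨C2 * (8 * E) ^ 2 * (2 * K), max (max Y1 z2) 3, by positivity, ?_⟩
  intro z y P h h' hz hy hyz hPz hP0 hPs hne hh hh'
  have hzz : Y1 ≤ z ∧ z2 ≤ z ∧ 3 ≤ z := by omega
  obtain ⟨hz1, hz2', hz3⟩ := hzz
  obtain ⟨w, hw0, hwE, hlw⟩ := HW z hz1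
  have hw0' : w0 ≤ w := (le_max_left _ _).trans hw0
  have hw2 : 2 ≤ w := (le_max_right _ _).trans hw0
  have hlw0 : 0 < Real.log w := Real.log_pos (by exact_mod_cast (by omega : 1 < w))
  have hwr : (0 : ℝ) < w := by exact_mod_cast (by omega : 0 < w)
  have hlz1 : (1 : ℝ) ≤ Real.log z := by
    rw [Real.le_log_iff_exp_le (by exact_mod_cast (by omega : 0 < z))]
    have h5 : Real.exp 1 < 2.7182818286 := Real.exp_one_lt_d9
    have h6 : (3 : ℝ) ≤ (z : ℝ) := by exact_mod_cast hz3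
    linarith
  have hly : 0 < Real.log y := Real.log_pos (by exact_mod_cast (by omega : 1 < y))
  have hyw : y ≤ w := by
    have h1 := hz2 z hz2'
    simp only [Function.comp] at h1
    have h2 : Real.exp (Real.log z / (2 * (4 * E : ℕ))) ≤ Real.exp (Real.log w) :=
      Real.exp_le_exp.2 hlw
    rw [Real.exp_log hwr] at h2
    exact_mod_cast (hyz.trans h1).trans h2
  -- the sieve bound
  obtain ⟨α, hα⟩ : ∃ α : ℝ, α = C2 * (Real.log y / Real.log w) ^ 2 := ⟨_, rfl⟩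
  obtain ⟨Q, hQ⟩ : ∃ Q : ℕ → Prop, ∀ m, Q m ↔ (z < m * P ∧ (m * P + h).Prime ∧ (m * P + h').Prime) :=
    ⟨_, fun _ => Iff.rfl⟩
  have hM1 : 1 ≤ w ^ E := Nat.one_le_pow _ _ (by omega)
  have hwz : w ≤ z := (Nat.le_self_pow (by omega) w).trans hwE
  have hcnt : ∀ X, w ^ E ≤ X → (((Icc 1 X).filter Q).card : ℝ) ≤ α * X := by
    intro X hX
    have h1 := HS y w X P h h' hw0' hy hyw hX hP0 hPs hne hh hh'
    refine le_trans (Nat.cast_le.2 (card_le_card fun m hm => ?_)) (h1.trans (le_of_eq ?_))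
    · rw [mem_filter, hQ] at hm
      rw [mem_filter]
      obtain ⟨hm1, hm2, hm3, hm4⟩ := hm
      refine ⟨hm1, fun p hp hyp hpw _ => ⟨fun hd => ?_, fun hd => ?_⟩⟩
      · have := (Nat.prime_dvd_prime_iff_eq hp hm3).1 hd
        omega
      · have := (Nat.prime_dvd_prime_iff_eq hp hm4).1 hd
        omega
    · rw [hα]; ring
  have hwK : w ^ E ≤ z ^ K := by
    calc w ^ E ≤ w ^ (4 * E) := Nat.pow_le_pow_right (by omega) (by omega)
      _ ≤ z := hwE
      _ ≤ z ^ K := Nat.le_self_pow (by omega) z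
  have h1 := log_sum Q hM1 hcnt (z ^ K) hwK
  have h2 : (Icc 1 (z ^ K)).filter (fun m => z < m * P ∧ (m * P + h).Prime ∧ (m * P + h').Prime) ⊆
      (Ioc (w ^ E) (z ^ K)).filter Q := by
    intro m hm
    rw [mem_filter, mem_Icc] at hm
    rw [mem_filter, mem_Ioc, hQ]
    refine ⟨⟨?_, hm.1.2⟩, hm.2⟩
    by_contra hc
    push Not at hc
    have h3 : m ^ 4 ≤ z := by
      calc m ^ 4 ≤ (w ^ E) ^ 4 := Nat.pow_le_pow_left hc 4
        _ = w ^ (4 * E) := by rw [← pow_mul, mul_comm]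
        _ ≤ z := hwE
    have h4 : P ^ 4 ≤ z := (Nat.pow_le_pow_right hP0 (by norm_num)).trans hPz
    have h5 : (m * P) ^ 4 ≤ z ^ 2 := by
      rw [mul_pow, sq]
      exact Nat.mul_le_mul h3 h4
    have h6 : z ^ 2 ≤ z ^ 4 := Nat.pow_le_pow_right (by omega) (by norm_num)
    have h7 := (Nat.pow_le_pow_iff_left (by norm_num : (4 : ℕ) ≠ 0)).1 (h5.trans h6)
    have := hm.2.1
    omega
  have h3 : ∑ m ∈ (Icc 1 (z ^ K)).filter
      (fun m => z < m * P ∧ (m * P + h).Prime ∧ (m * P + h').Prime), 1 / (m : ℝ) ≤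
      ∑ m ∈ (Ioc (w ^ E) (z ^ K)).filter Q, 1 / (m : ℝ) :=
    sum_le_sum_of_subset_of_nonneg h2 fun _ _ _ => by positivity
  refine h3.trans (h1.trans ?_)
  have h4 : 1 + Real.log ((z ^ K : ℕ) : ℝ) ≤ 2 * K * Real.log z := by
    push_cast
    rw [Real.log_pow]
    nlinarith
  have h5 : α ≤ C2 * (8 * E) ^ 2 * (Real.log y ^ 2 / Real.log z ^ 2) := by
    rw [hα, mul_assoc]
    refine mul_le_mul_of_nonneg_left ?_ hC2.le
    have h6 : Real.log y / Real.log w ≤ 8 * E * (Real.log y / Real.log z) := by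
      rw [mul_div_assoc', div_le_div_iff₀ hlw0 (by linarith)]
      rw [div_le_iff₀ (by positivity)] at hlw
      push_cast at hlw
      calc Real.log y * Real.log z ≤ Real.log y * (Real.log w * (2 * (4 * E))) :=
            mul_le_mul_of_nonneg_left hlw hly.le
        _ = _ := by ring
    calc (Real.log y / Real.log w) ^ 2 ≤ (8 * E * (Real.log y / Real.log z)) ^ 2 :=
          pow_le_pow_left₀ (by positivity) h6 2
      _ = _ := by rw [mul_pow, div_pow]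
  have h6 : 0 ≤ α := by rw [hα]; positivity
  calc α * (1 + Real.log ((z ^ K : ℕ) : ℝ)) ≤
      C2 * (8 * E) ^ 2 * (Real.log y ^ 2 / Real.log z ^ 2) * (2 * K * Real.log z) :=
        mul_le_mul h5 h4 (by
          have := Real.log_natCast_nonneg (z ^ K)
          linarith) (by positivity)
    _ = _ := by
        have : Real.log z ≠ 0 := by linarith
        field_simp

/-- the ratio `P / φ(P)` for moduli divisible by almost all small primes -/
theorem ratio : ∃ c : ℝ, 0 < c ∧ ∀ y p₀ P : ℕ, 2 ≤ y → p₀.Prime → 0 < P →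
    (∀ p : ℕ, p.Prime → p ≤ y → p ≠ p₀ → p ∣ P) →
    c * Real.log y ≤ (P : ℝ) / P.totient := by
  obtain ⟨C, hC, HV⟩ := V_up0
  refine ⟨1 / C, by positivity, fun y p₀ P hy hp₀ hPp hP => ?_⟩
  have hly : 0 < Real.log y := Real.log_pos (by exact_mod_cast (by omega : 1 < y))
  have hP0 : (0 : ℝ) < P := by exact_mod_cast hPp
  have hφ0 : (0 : ℝ) < P.totient := by exact_mod_cast Nat.totient_pos.2 hPp
  have h1 := V_primeFactors hPp
  have h2 : V P.primeFactors ≤ V ((Ioc 2 y).filter (fun p => p.Prime ∧ ¬ p ∣ p₀)) := by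
    refine V_anti (fun p hp => ?_) fun p hp => Nat.prime_of_mem_primeFactors hp
    rw [mem_filter, mem_Ioc] at hp
    rw [Nat.mem_primeFactors]
    refine ⟨hp.2.1, hP p hp.2.1 hp.1.2 ?_, hPp.ne'⟩
    rintro rfl
    exact hp.2.2 dvd_rfl
  have h3 := HV 2 y le_rfl hy p₀ hp₀.one_lt.le (by
    rw [hp₀.primeFactors]
    have h6 : ∑ p ∈ ({p₀} : Finset ℕ).filter (fun p => 2 < p), (1 : ℝ) / p ≤
        ∑ p ∈ ({p₀} : Finset ℕ), (1 : ℝ) / p :=
      sum_le_sum_of_subset_of_nonneg (filter_subset _ _) fun _ _ _ => by positivity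
    refine h6.trans ?_
    rw [sum_singleton, div_le_one (by exact_mod_cast hp₀.pos)]
    exact_mod_cast hp₀.one_lt.le)
  have hl2 : Real.log (2 : ℕ) ≤ 1 := by
    have := Real.log_two_lt_d9
    push_cast
    linarith
  have h4 : (P.totient : ℝ) / P ≤ C * (1 / Real.log y) := by
    rw [← h1]
    exact (h2.trans h3).trans
      (mul_le_mul_of_nonneg_left (div_le_div_of_nonneg_right hl2 hly.le) hC.le)
  rw [div_le_iff₀ hP0] at h4
  rw [le_div_iff₀ hφ0]
  calc 1 / C * Real.log y * P.totient ≤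
      1 / C * Real.log y * (C * (1 / Real.log y) * P) :=
        mul_le_mul_of_nonneg_left h4 (by positivity)
    _ = P := by field_simp

/-- a prime to be left out of the modulus -/
theorem leave_out {q₁ q : ℕ} (h1 : q₁ ≠ 0) (hq : q ≠ 0) (h : ¬ q₁ ∣ q) :
    ∃ p₀ : ℕ, p₀.Prime ∧ ∀ M : ℕ, M ≠ 0 → ¬ p₀ ∣ M → ¬ q₁ ∣ q * M := by
  rw [← Nat.factorization_prime_le_iff_dvd h1 hq] at h
  push Not at h
  obtain ⟨p₀, hp₀, hlt⟩ := h
  refine ⟨p₀, hp₀, fun M hM hpM hd => ?_⟩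
  have h2 := (Nat.factorization_prime_le_iff_dvd h1 (mul_ne_zero hq hM)).2 hd p₀ hp₀
  rw [Nat.factorization_mul hq hM, Finsupp.add_apply, Nat.factorization_eq_zero_of_not_dvd hpM] at h2
  omega

end Pool.Agent.R529.LG
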