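import Pool.Agent.TH101.RG.Sh
import Pool.Agent.R529.LG.Pair

/-!
The modulus and the classes.
-/

set_option autoImplicit false

namespace Pool.Agent.R529.LG

open Finset Filter
open Pool.Agent.TH101.RG (V0 rsurvK vfacts)

/-- the length of the window -/
noncomputable def RR (y : ℝ) : ℝ :=
  y * Real.log y * Real.log (Real.log (Real.log y)) / Real.log (Real.log y) ^ 2

theorem rr_ev (η : ℝ) (hη : 0 < η) (hη1 : η ≤ 1) : ∀ᶠ y : ℝ in atTop,
    9 * y ≤ η * RR y ∧ RR y ≤ y * Real.log y ^ 2 ∧ y * Real.log y ^ 2 ≤ y ^ 2 ∧ 100 ≤ y ∧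
      100 ≤ Real.log y ∧ 1 ≤ Real.log (Real.log y) ∧ 1 ≤ Real.log (Real.log (Real.log y)) := by
  have t1 := Real.tendsto_log_atTop
  have t2 : Tendsto (fun y : ℝ => Real.log (Real.log y)) atTop atTop := t1.comp t1
  have t3 : Tendsto (fun y : ℝ => Real.log (Real.log (Real.log y))) atTop atTop := t1.comp t2
  have h1 := t2.eventually ((Real.tendsto_exp_div_pow_atTop 2).eventually_ge_atTop (9 / η))
  have h2 := (Real.isLittleO_pow_log_id_atTop (n := 2)).bound (show (0 : ℝ) < 1 by norm_num)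
  filter_upwards [h1, h2, t1.eventually_ge_atTop 100, t2.eventually_ge_atTop 1, t3.eventually_ge_atTop 1,
    eventually_ge_atTop 100] with y e1 e2 e3 e4 e5 e6
  have hl0 : 0 < Real.log y := by linarith
  have hll0 : 0 < Real.log (Real.log y) := by linarith
  rw [Real.exp_log hl0, le_div_iff₀ (by positivity)] at e1
  rw [one_mul, id, Real.norm_of_nonneg (by positivity), Real.norm_of_nonneg (by linarith)] at e2
  refine ⟨?_, ?_, ?_, e6, e3, e4, e5⟩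
  · unfold RR
    rw [← mul_div_assoc, le_div_iff₀ (by positivity)]
    have h3 : 9 * Real.log (Real.log y) ^ 2 ≤ η * Real.log y := by
      calc 9 * Real.log (Real.log y) ^ 2 = η * (9 / η * Real.log (Real.log y) ^ 2) := by field_simp
        _ ≤ _ := mul_le_mul_of_nonneg_left e1 hη.le
    calc 9 * y * Real.log (Real.log y) ^ 2 = y * (9 * Real.log (Real.log y) ^ 2) := by ring
      _ ≤ y * (η * Real.log y) := mul_le_mul_of_nonneg_left h3 (by linarith)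
      _ = η * (y * Real.log y * 1) := by ring
      _ ≤ _ := by gcongr
  · unfold RR
    have h3 : Real.log (Real.log (Real.log y)) ≤ Real.log (Real.log y) :=
      (Real.log_le_sub_one_of_pos hll0).trans (by linarith)
    have h4 : Real.log (Real.log y) ≤ Real.log y := (Real.log_le_sub_one_of_pos hl0).trans (by linarith)
    rw [div_le_iff₀ (by positivity)]
    calc y * Real.log y * Real.log (Real.log (Real.log y)) ≤ y * Real.log y * Real.log y :=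
          mul_le_mul_of_nonneg_left (h3.trans h4) (by positivity)
      _ = y * Real.log y ^ 2 * 1 := by ring
      _ ≤ _ := mul_le_mul_of_nonneg_left (one_le_pow₀ e4) (by positivity)
  · calc y * Real.log y ^ 2 ≤ y * y := mul_le_mul_of_nonneg_left e2 (by linarith)
      _ = _ := by ring

open Classical in
/-- the classes: a window `[0, H]` of Rankin's length with a prime `t₀` in the middle, few survivors -/
theorem cov (C₀ C₁ c₁ : ℝ) (hC₁ : 0 ≤ C₁) (hc₁ : 0 < c₁) : ∃ η : ℝ, 0 < η ∧ ∃ y₀ : ℕ, ∀ y : ℕ, y₀ ≤ y →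
    100 ≤ Real.log y ∧ (Real.log y) ^ 4 ≤ Real.exp (V0 y) ∧ 100 ≤ y ∧ ∀ F : Finset ℕ,
    (∀ q ∈ F, q.Prime) → ∑ q ∈ F, (1 : ℝ) / q ≤ C₀ →
    ∑ q ∈ F.filter (fun q : ℕ => V0 y < Real.log q), (1 : ℝ) / q ≤ C₁ / Real.log y →
    ∃ (H G t₀ : ℕ) (b : ℕ → ℕ), H ≤ y ^ 2 ∧ y < t₀ ∧ t₀.Prime ∧ G ≤ t₀ ∧ t₀ + G ≤ H ∧ η * RR y ≤ G ∧
      (∀ p : ℕ, p.Prime → p ≤ y → p ∉ F → b p < p ∧ ¬ t₀ ≡ b p [MOD p]) ∧
      (((range (H + 1)).filter (fun k => ∀ p : ℕ, p.Prime → p ≤ y → p ∉ F →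
        ¬ k ≡ b p [MOD p])).card : ℝ) ≤ c₁ * (y / Real.log y) := by
  obtain ⟨C, hC, y₁, hrs⟩ := rsurvK 1 C₀ C₁ hC₁
  obtain ⟨η, hη⟩ : ∃ η : ℝ, η = min (1 / 2) (c₁ / C) := ⟨_, rfl⟩
  have hη0 : 0 < η := by rw [hη]; positivity
  have hη1 : η ≤ 1 / 2 := by rw [hη]; exact min_le_left _ _
  have hη2 : η ≤ c₁ / C := by rw [hη]; exact min_le_right _ _
  obtain ⟨y₂, hy₂⟩ := eventually_atTop.1 (tendsto_natCast_atTop_atTop.eventually
    ((rr_ev η hη0 (by linarith)).and vfacts))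
  refine ⟨η / 8, by positivity, max y₁ y₂, fun y hy => ?_⟩
  obtain ⟨⟨g1, g2, g3, g4, g5, g6, g7⟩, g8, g9, g10⟩ := hy₂ y ((le_max_right _ _).trans hy)
  refine ⟨g5, g9, by exact_mod_cast g4, fun F hF hFs hFt => ?_⟩
  obtain ⟨H, hH⟩ : ∃ H : ℕ, H = ⌊η * RR y⌋₊ := ⟨_, rfl⟩
  have hy0 : (0 : ℝ) < y := by linarith
  have hR0 : 0 ≤ η * RR y := by linarith
  have hH1 : (H : ℝ) ≤ η * RR y := by rw [hH]; exact Nat.floor_le hR0
  have hH2 : η * RR y < H + 1 := by rw [hH]; exact Nat.lt_floor_add_one _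
  have hH8 : 8 * y ≤ H := by
    have : (8 : ℝ) * y ≤ H := by linarith
    exact_mod_cast this
  have hRR0 : 0 ≤ RR y := by
    by_contra hcon
    push Not at hcon
    nlinarith
  have hHR : (H : ℝ) ≤ RR y := hH1.trans (by nlinarith)
  obtain ⟨G, hG⟩ : ∃ G : ℕ, G = H / 4 := ⟨_, rfl⟩
  have hGy : 2 * y ≤ G := by omega
  have hG0 : G ≠ 0 := by
    have : 0 < y := by exact_mod_cast hy0
    omega
  obtain ⟨t₀, ht₀, ht₁, ht₂⟩ := Nat.exists_prime_lt_and_le_two_mul G hG0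
  have hyt : y < t₀ := by omega
  obtain ⟨b, hb1, hb2⟩ := hrs y ((le_max_left _ _).trans hy) F hF hFs hFt H (by omega) (hHR.trans g2)
    (fun _ _ => t₀) (fun _ p hp hpy _ _ hd => by
      have := (Nat.prime_dvd_prime_iff_eq hp ht₀).1 hd
      omega)
  refine ⟨H, G, t₀, b, ?_, hyt, ht₀, by omega, by omega, ?_, fun p hp hpy hpF => ?_, ?_⟩
  · have : (H : ℝ) ≤ (y : ℝ) ^ 2 := hHR.trans (g2.trans g3)
    exact_mod_cast this
  · have h1 : (H : ℝ) < 4 * (G + 1) := by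
      have : H < 4 * (G + 1) := by omega
      exact_mod_cast this
    linarith
  · exact ⟨(hb1 p hp hpy hpF).1, (hb1 p hp hpy hpF).2 0⟩
  · refine hb2.trans ?_
    have hl0 : 0 < Real.log y := by linarith
    have hll0 : 0 < Real.log (Real.log y) := by linarith
    have hlll0 : 0 < Real.log (Real.log (Real.log y)) := by linarith
    rw [div_le_iff₀ (by positivity)]
    calc C * H * Real.log (Real.log y) ^ 2 ≤ C * (η * RR y) * Real.log (Real.log y) ^ 2 := by gcongr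
      _ = C * η * (y * Real.log y * Real.log (Real.log (Real.log y))) := by
          unfold RR
          field_simp
      _ ≤ c₁ * (y * Real.log y * Real.log (Real.log (Real.log y))) := by
          apply mul_le_mul_of_nonneg_right _ (by positivity)
          rw [le_div_iff₀ hC] at hη2
          linarith
      _ = _ := by field_simp

/-- the product of the primes `≤ y` which do not divide `q` and are different from `p₀` -/
def MM (y q p₀ : ℕ) : ℕ := ∏ p ∈ (Icc 1 y).filter (fun p => p.Prime ∧ ¬ p ∣ q ∧ p ≠ p₀), p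

theorem MM_pos (y q p₀ : ℕ) : 0 < MM y q p₀ := prod_pos fun _ hp => (mem_filter.1 hp).2.1.pos

theorem MM_dvd {y q p₀ p : ℕ} (hp : p.Prime) : p ∣ MM y q p₀ ↔ p ≤ y ∧ ¬ p ∣ q ∧ p ≠ p₀ := by
  constructor
  · intro h
    obtain ⟨r, hr, hd⟩ := (Nat.Prime.prime hp).exists_mem_finset_dvd h
    rw [mem_filter, mem_Icc] at hr
    rw [Nat.prime_dvd_prime_iff_eq hp hr.2.1] at hd
    exact ⟨hd ▸ hr.1.2, hd ▸ hr.2.2.1, hd ▸ hr.2.2.2⟩
  · rintro ⟨h1, h2, h3⟩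
    exact dvd_prod_of_mem (fun p => p) (mem_filter.2 ⟨mem_Icc.2 ⟨hp.one_lt.le, h1⟩, hp, h2, h3⟩)

theorem MM_le (y q p₀ : ℕ) : MM y q p₀ ≤ 4 ^ y := by
  refine le_trans ?_ (primorial_le_four_pow y)
  unfold MM primorial
  refine Finset.prod_le_prod_of_subset_of_one_le' (fun p hp => ?_) fun p hp _ => ?_
  · rw [mem_filter, mem_Icc] at hp
    rw [mem_filter, mem_range]
    exact ⟨by omega, hp.2.1⟩
  · exact (mem_filter.1 hp).2.one_lt.le

theorem MM_coprime (y q p₀ : ℕ) : (MM y q p₀).Coprime q := by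
  apply Nat.Coprime.prod_left
  intro p hp
  rw [mem_filter] at hp
  exact (Nat.Prime.coprime_iff_not_dvd hp.2.1).2 hp.2.2.1

/-- the residue class -/
theorem crt (y q p₀ t₀ a : ℕ) (hq : 0 < q) (b : ℕ → ℕ)
    (hb : ∀ p : ℕ, p.Prime → p ≤ y → ¬ p ∣ q → p ≠ p₀ → b p < p) :
    ∃ r : ℕ, r < q * MM y q p₀ ∧ r + t₀ ≡ a [MOD q] ∧
      ∀ p : ℕ, p.Prime → p ≤ y → ¬ p ∣ q → p ≠ p₀ → p ∣ r + b p := by
  obtain ⟨S, hS⟩ : ∃ S : Finset ℕ, S = (Icc 1 y).filter (fun p => p.Prime ∧ ¬ p ∣ q ∧ p ≠ p₀) := ⟨_, rfl⟩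
  have hSm : ∀ p, p ∈ S ↔ p.Prime ∧ p ≤ y ∧ ¬ p ∣ q ∧ p ≠ p₀ := by
    intro p
    rw [hS, mem_filter, mem_Icc]
    constructor
    · rintro ⟨⟨_, h1⟩, h2, h3⟩
      exact ⟨h2, h1, h3⟩
    · rintro ⟨h2, h1, h3⟩
      exact ⟨⟨h2.one_lt.le, h1⟩, h2, h3⟩
  obtain ⟨r₁, hr₁⟩ := Nat.chineseRemainderOfFinset (fun p => p - b p) (fun p => p) S
    (fun p hp => ((hSm p).1 hp).1.ne_zero) (fun p hp p' hp' hne =>
      (Nat.coprime_primes ((hSm p).1 hp).1 ((hSm p').1 hp').1).2 hne)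
  obtain ⟨r₂, hr₂, hr₃⟩ := Nat.chineseRemainder (MM_coprime y q p₀) r₁ (a + (q - 1) * t₀)
  have hQ : 0 < q * MM y q p₀ := Nat.mul_pos hq (MM_pos y q p₀)
  refine ⟨r₂ % (q * MM y q p₀), Nat.mod_lt _ hQ, ?_, fun p hp hpy hpq hp0 => ?_⟩
  · have h1 : r₂ % (q * MM y q p₀) ≡ r₂ [MOD q] := (Nat.mod_modEq _ _).of_dvd (Dvd.intro _ rfl)
    have h2 := (h1.trans hr₃).add_right t₀
    refine h2.trans ?_
    have h3 : a + (q - 1) * t₀ + t₀ = a + q * t₀ := by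
      obtain ⟨e, rfl⟩ := Nat.exists_eq_add_of_le hq
      rw [Nat.add_sub_cancel_left]
      ring
    rw [h3]
    exact (Nat.modEq_iff_dvd' (Nat.le_add_right _ _)).2 (by simp) |>.symm
  · have hpM : p ∣ MM y q p₀ := (MM_dvd hp).2 ⟨hpy, hpq, hp0⟩
    have h1 : r₂ % (q * MM y q p₀) ≡ r₂ [MOD p] :=
      (Nat.mod_modEq _ _).of_dvd (hpM.trans (Dvd.intro_left _ rfl))
    have h2 : r₂ ≡ r₁ [MOD p] := hr₂.of_dvd hpM
    have h3 : r₁ ≡ p - b p [MOD p] := hr₁ p ((hSm p).2 ⟨hp, hpy, hpq, hp0⟩)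
    have h4 := ((h1.trans h2).trans h3).add_right (b p)
    have h5 := hb p hp hpy hpq hp0
    rw [Nat.sub_add_cancel h5.le] at h4
    exact (Nat.modEq_zero_iff_dvd.1 (h4.trans (Nat.modEq_zero_iff_dvd.2 dvd_rfl)))

end Pool.Agent.R529.LG
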