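import Pool.Agent.R529.LG.Main

/-!
Linnik's theorem for primes isolated by Rankin gaps: the final form.
-/

set_option autoImplicit false

namespace Pool.Agent.R529.LG

open Finset Filter
open Pool.Agent.TH101.RG (V0)

/-- Rankin's function -/
noncomputable def RX (x : ℝ) : ℝ :=
  Real.log x * Real.log (Real.log x) * Real.log (Real.log (Real.log (Real.log x))) /
    (Real.log (Real.log (Real.log x))) ^ 2

/-- the threshold for the medium primes -/
noncomputable def TX (x : ℝ) : ℝ :=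
  Real.log (Real.log x) * Real.log (Real.log (Real.log (Real.log x))) /
    (40 * Real.log (Real.log (Real.log x)))

theorem compare (C : ℝ) (hC : 1 ≤ C) : ∀ᶠ X : ℝ in atTop, ∀ y : ℝ, Real.log X / C ≤ y → y ≤ Real.log X →
    Real.log y ≤ Real.log (Real.log X) ∧ 0 < Real.log y ∧ TX X ≤ V0 y ∧ RX X / (4 * C) ≤ RR y := by
  have t1 := Real.tendsto_log_atTop
  have t2 : Tendsto (fun y : ℝ => Real.log (Real.log y)) atTop atTop := t1.comp t1
  have t3 : Tendsto (fun y : ℝ => Real.log (Real.log (Real.log y))) atTop atTop := t1.comp t2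
  have t4 : Tendsto (fun y : ℝ => Real.log (Real.log (Real.log (Real.log y)))) atTop atTop := t1.comp t3
  filter_upwards [t1.eventually_ge_atTop (2 * C), t2.eventually_ge_atTop (2 * Real.log C + 4),
    t3.eventually_ge_atTop 4, t4.eventually_ge_atTop 4] with X e1 e2 e3 e4
  intro y hy1 hy2
  obtain ⟨T, hT⟩ : ∃ T, T = Real.log X := ⟨_, rfl⟩
  rw [← hT] at hy1 hy2 e1 e2 e3 e4
  have hT0 : 0 < T := by linarith
  have hC0 : 0 < C := by linarith
  have hlC : 0 ≤ Real.log C := Real.log_nonneg hC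
  obtain ⟨u, hu⟩ : ∃ u, u = Real.log T := ⟨_, rfl⟩
  rw [← hu] at e2 e3 e4
  obtain ⟨v, hv⟩ : ∃ v, v = Real.log u := ⟨_, rfl⟩
  rw [← hv] at e3 e4
  obtain ⟨w, hw⟩ : ∃ w, w = Real.log v := ⟨_, rfl⟩
  rw [← hw] at e4
  have hu0 : 0 < u := by linarith
  have hv0 : 0 < v := by linarith
  have hw0 : 0 < w := by linarith
  have hy0 : 0 < y := lt_of_lt_of_le (by positivity) hy1
  have hl2 := Real.log_two_lt_d9
  have a1 : Real.log y ≤ u := by rw [hu]; exact Real.log_le_log hy0 hy2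
  have a2 : u / 2 ≤ Real.log y := by
    have h1 := Real.log_le_log (by positivity) hy1
    rw [Real.log_div hT0.ne' hC0.ne', ← hu] at h1
    linarith
  have hly0 : 0 < Real.log y := by linarith
  have a3 : Real.log (Real.log y) ≤ v := by rw [hv]; exact Real.log_le_log hly0 a1
  have a4 : v / 2 ≤ Real.log (Real.log y) := by
    have h1 := Real.log_le_log (by positivity) a2
    rw [Real.log_div hu0.ne' (by norm_num), ← hv] at h1
    linarith
  have hlly0 : 0 < Real.log (Real.log y) := by linarith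
  have a5 : w / 2 ≤ Real.log (Real.log (Real.log y)) := by
    have h1 := Real.log_le_log (by positivity) a4
    rw [Real.log_div hv0.ne' (by norm_num), ← hw] at h1
    linarith
  have hllly0 : 0 < Real.log (Real.log (Real.log y)) := by linarith
  refine ⟨?_, hly0, ?_, ?_⟩
  · rw [← hT, ← hu]; exact a1
  · unfold TX V0
    rw [← hT, ← hu, ← hv, ← hw]
    calc u * w / (40 * v) = (u / 2) * (w / 2) / (10 * v) := by field_simp; ring
      _ ≤ Real.log y * Real.log (Real.log (Real.log y)) / (10 * Real.log (Real.log y)) := by gcongr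
  · unfold RX RR
    rw [← hT, ← hu, ← hv, ← hw]
    calc T * u * w / v ^ 2 / (4 * C) = (T / C) * (u / 2) * (w / 2) / v ^ 2 := by field_simp; ring
      _ ≤ y * Real.log y * Real.log (Real.log (Real.log y)) / Real.log (Real.log y) ^ 2 := by gcongr

theorem floor_facts (k B : ℕ) (hk : 1 ≤ k) : ∀ᶠ X : ℝ in atTop, ∀ z : ℕ, z = ⌊X ^ (1 / (k : ℝ))⌋₊ →
    Real.log X / (2 * k) ≤ Real.log z ∧ (z : ℝ) ^ k ≤ X ∧ X ^ (1 / (2 * (k : ℝ))) ≤ z ∧
      Real.log z ≤ Real.log X ∧ Real.log X ^ B ≤ Real.log z ^ (B + 1) ∧ 10000 ≤ Real.log z := by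
  have hk0 : (0 : ℝ) < k := by exact_mod_cast hk
  have hk1 : (1 : ℝ) ≤ k := by exact_mod_cast hk
  have h1 : ∀ᶠ X : ℝ in atTop, 2 ≤ X ^ (1 / (2 * (k : ℝ))) :=
    (tendsto_rpow_atTop (by positivity)).eventually_ge_atTop 2
  filter_upwards [h1, eventually_ge_atTop 2, Real.tendsto_log_atTop.eventually_ge_atTop ((2 * (k : ℝ)) ^ (B + 1)),
    Real.tendsto_log_atTop.eventually_ge_atTop (20000 * (k : ℝ))]
    with X e1 e2 e3 e4
  intro z hz
  have hX0 : 0 < X := by linarith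
  have hX1 : 1 ≤ X := by linarith
  obtain ⟨s, hs⟩ : ∃ s, s = X ^ (1 / (2 * (k : ℝ))) := ⟨_, rfl⟩
  rw [← hs] at e1
  have hs2 : X ^ (1 / (k : ℝ)) = s ^ 2 := by
    rw [hs, ← Real.rpow_natCast, ← Real.rpow_mul hX0.le]
    congr 1
    field_simp
    norm_num
  rw [hs2] at hz
  have hz1 : (z : ℝ) ≤ s ^ 2 := by rw [hz]; exact Nat.floor_le (by positivity)
  have hz2 : s ^ 2 < z + 1 := by rw [hz]; exact Nat.lt_floor_add_one _
  have hz3 : s ≤ z := by nlinarith
  have hz0 : (0 : ℝ) < z := by linarith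
  have hls : Real.log s = Real.log X / (2 * k) := by
    rw [hs, Real.log_rpow hX0]
    ring
  have c1 : Real.log X / (2 * k) ≤ Real.log z := by
    rw [← hls]
    exact Real.log_le_log (by linarith) hz3
  have c2 : (z : ℝ) ^ k ≤ X := by
    calc (z : ℝ) ^ k ≤ (s ^ 2) ^ k := pow_le_pow_left₀ hz0.le hz1 k
      _ = X := by
        rw [← hs2, ← Real.rpow_natCast, ← Real.rpow_mul hX0.le, one_div,
          inv_mul_cancel₀ hk0.ne', Real.rpow_one]
  have c4 : Real.log z ≤ Real.log X := by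
    apply Real.log_le_log hz0
    refine le_trans ?_ c2
    exact le_self_pow₀ (by linarith) (by omega)
  have hlX0 : 0 < Real.log X := Real.log_pos (by linarith)
  refine ⟨c1, c2, by rw [← hs]; exact hz3, c4, ?_, ?_⟩
  · calc Real.log X ^ B = Real.log X ^ B * (2 * (k : ℝ)) ^ (B + 1) / (2 * (k : ℝ)) ^ (B + 1) := by
          field_simp
      _ ≤ Real.log X ^ B * Real.log X / (2 * (k : ℝ)) ^ (B + 1) := by gcongr
      _ = (Real.log X / (2 * k)) ^ (B + 1) := by rw [div_pow, pow_succ (Real.log X)]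
      _ ≤ _ := pow_le_pow_left₀ (by positivity) c1 _
  · refine le_trans ?_ c1
    rw [le_div_iff₀ (by positivity)]
    linarith

/-- **Linnik's theorem for primes isolated by Rankin gaps.** -/
theorem final (A : ℝ) (B : ℕ) : ∃ κ c : ℝ, 0 < κ ∧ 0 < c ∧ ∃ X₀ : ℝ, ∀ X : ℝ, X₀ ≤ X →
    ∃ q₁ : ℕ, Real.log X ^ B < q₁ ∧ ∀ q : ℕ, 1 ≤ q → (q : ℝ) ≤ X ^ κ → ¬ q₁ ∣ q →
    ∑ p ∈ q.primeFactors.filter (fun p : ℕ => (p : ℝ) ≤ Real.log X), (1 : ℝ) / p ≤ A →
    ∑ p ∈ q.primeFactors.filter (fun p : ℕ => (p : ℝ) ≤ Real.log X ∧ TX X < Real.log p), (1 : ℝ) / p ≤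
      A / Real.log (Real.log X) →
    ∀ a : ℕ, a.Coprime q →
    X ^ κ ≤ ({p : ℕ | p.Prime ∧ (p : ℝ) ≤ X ∧ p ≡ a [MOD q] ∧
      ∀ p' : ℕ, p'.Prime → p' ≠ p → c * RX X < |(p' : ℝ) - p|}.ncard : ℝ) := by
  classical
  obtain ⟨K, η, z0, hK, hη, hmain⟩ := main |A| (B + 1)
  obtain ⟨k, hk⟩ : ∃ k : ℕ, k = K + 1 := ⟨_, rfl⟩
  have hk1 : 1 ≤ k := by omega
  have hk0 : (0 : ℝ) < k := by exact_mod_cast hk1
  have hk1' : (1 : ℝ) ≤ k := by exact_mod_cast hk1
  obtain ⟨C, hC⟩ : ∃ C : ℝ, C = 256 * k := ⟨_, rfl⟩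
  have hC1 : 1 ≤ C := by rw [hC]; linarith
  refine ⟨1 / (64 * (k : ℝ)), η / (4 * C), by positivity, by positivity, ?_⟩
  have hev1 : ∀ᶠ X : ℝ in atTop, z0 ≤ ⌊X ^ (1 / (k : ℝ))⌋₊ :=
    (tendsto_nat_floor_atTop.comp (tendsto_rpow_atTop (by positivity))).eventually_ge_atTop z0
  obtain ⟨X₀, hX₀⟩ := eventually_atTop.1 ((hev1.and (compare C hC1)).and
    ((floor_facts k B hk1).and ((eventually_ge_atTop (2 : ℝ)).and
      (Real.tendsto_log_atTop.eventually_ge_atTop 1))))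
  refine ⟨X₀, fun X hX => ?_⟩
  obtain ⟨⟨hz0, hcmp⟩, hff, hX2, hlX1⟩ := hX₀ X hX
  obtain ⟨z, hz⟩ : ∃ z, z = ⌊X ^ (1 / (k : ℝ))⌋₊ := ⟨_, rfl⟩
  rw [← hz] at hz0
  obtain ⟨c1, c2, c3, c4, c5, c6⟩ := hff z hz
  obtain ⟨q₁, hq₁, hq⟩ := hmain z hz0
  have hX0 : 0 < X := by linarith
  have hX1 : 1 ≤ X := by linarith
  obtain ⟨y, hy⟩ : ∃ y, y = ⌊Real.log z / 64⌋₊ := ⟨_, rfl⟩
  have hlz0 : 0 < Real.log z := by linarith
  have hy1 : (y : ℝ) ≤ Real.log z / 64 := by rw [hy]; exact Nat.floor_le (by positivity)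
  have hy2 : Real.log z / 64 < y + 1 := by rw [hy]; exact Nat.lt_floor_add_one _
  have hyX : (y : ℝ) ≤ Real.log X := by linarith
  have hyC : Real.log X / C ≤ y := by
    have h1 : Real.log X / C = (Real.log X / (2 * k)) / 128 := by rw [hC]; field_simp; norm_num
    rw [h1]
    linarith
  obtain ⟨d1, d2, d3, d4⟩ := hcmp y hyC hyX
  refine ⟨q₁, lt_of_le_of_lt c5 hq₁, fun q hq1 hqX hqq hqA hqB a ha => ?_⟩
  have hq0 : (0 : ℝ) < q := by exact_mod_cast hq1
  have h32 : q ^ 32 ≤ z := by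
    have h1 : (q : ℝ) ^ 32 ≤ z := by
      calc (q : ℝ) ^ 32 ≤ (X ^ (1 / (64 * (k : ℝ)))) ^ 32 := pow_le_pow_left₀ hq0.le hqX 32
        _ = X ^ (1 / (2 * (k : ℝ))) := by
          rw [← Real.rpow_natCast, ← Real.rpow_mul hX0.le]
          congr 1
          push_cast
          field_simp
          norm_num
        _ ≤ z := c3
    exact_mod_cast h1
  have hS1 : ∑ p ∈ q.primeFactors.filter (fun p => p ≤ y), (1 : ℝ) / p ≤ |A| := by
    refine le_trans (sum_le_sum_of_subset_of_nonneg (fun p hp => ?_) fun _ _ _ => by positivity)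
      (hqA.trans (le_abs_self A))
    rw [mem_filter] at hp ⊢
    exact ⟨hp.1, le_trans (by exact_mod_cast hp.2) hyX⟩
  have hS2 : ∑ p ∈ q.primeFactors.filter (fun p => p ≤ y ∧ V0 y < Real.log p), (1 : ℝ) / p ≤
      |A| / Real.log y := by
    have h1 : A / Real.log (Real.log X) ≤ |A| / Real.log y := by
      calc A / Real.log (Real.log X) ≤ |A| / Real.log (Real.log X) :=
            div_le_div_of_nonneg_right (le_abs_self A) (by linarith)
        _ ≤ _ := div_le_div_of_nonneg_left (abs_nonneg A) d2 d1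
    refine le_trans (sum_le_sum_of_subset_of_nonneg (fun p hp => ?_) fun _ _ _ => by positivity)
      (hqB.trans h1)
    rw [mem_filter] at hp ⊢
    exact ⟨hp.1, le_trans (by exact_mod_cast hp.2.1) hyX, lt_of_le_of_lt d3 hp.2.2⟩
  have h1 := hq y hy q hq1 h32 hqq hS1 hS2 a ha
  obtain ⟨W, hW⟩ : ∃ W : Finset ℕ, W = (Ioc z (z ^ (K + 1))).filter (fun p => p.Prime ∧ p ≡ a [MOD q] ∧
      Alone (η * RR y) p) := ⟨_, rfl⟩
  rw [← hW] at h1
  have h2 : X ^ (1 / (64 * (k : ℝ))) ≤ W.card := by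
    have h3 : (X ^ (1 / (64 * (k : ℝ)))) ^ 2 ≤ (W.card : ℝ) ^ 2 := by
      refine le_trans ?_ (c3.trans h1)
      rw [← Real.rpow_natCast, ← Real.rpow_mul hX0.le]
      apply Real.rpow_le_rpow_of_exponent_le hX1
      push_cast
      rw [div_mul_eq_mul_div, div_le_div_iff₀ (by positivity) (by positivity)]
      nlinarith
    exact le_of_sq_le_sq h3 (Nat.cast_nonneg _)
  refine h2.trans ?_
  rw [← Set.ncard_coe_finset]
  apply Nat.cast_le.2
  apply Set.ncard_le_ncard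
  · intro p hp
    rw [mem_coe, hW, mem_filter, mem_Ioc] at hp
    refine ⟨hp.2.1, ?_, hp.2.2.1, fun p' hp' hne => ?_⟩
    · refine le_trans ?_ c2
      rw [hk]
      exact_mod_cast hp.1.2
    · refine lt_of_le_of_lt ?_ (hp.2.2.2 p' hp' hne)
      calc η / (4 * C) * RX X = η * (RX X / (4 * C)) := by field_simp
        _ ≤ η * RR y := mul_le_mul_of_nonneg_left d4 hη.le
  · apply (Set.finite_Iic ⌊X⌋₊).subset
    intro p hp
    exact Set.mem_Iic.2 (Nat.le_floor hp.2.1)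

end Pool.Agent.R529.LG
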