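import Pool.Agent.R529.LG.Cov
import Pool.Agent.R529.FT.First

/-!
Primes in residue classes to large moduli which are isolated by Rankin gaps.
-/

set_option autoImplicit false

namespace Pool.Agent.R529.LG

open Finset Filter
open Pool.Agent.TH101.RG (V0)
open Pool.Agent.Y835.SC (big_card)

/-- the prime `p` has no other prime within distance `G` -/
def Alone (G : ℝ) (p : ℕ) : Prop := ∀ p' : ℕ, p'.Prime → p' ≠ p → G < |(p' : ℝ) - p|

open Classical in
theorem one_row {z Q r H G t₀ y : ℕ} {b : ℕ → ℕ} {F : Finset ℕ} (hGt : G ≤ t₀) (htH : t₀ + G ≤ H)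
    (hyz : y < z)
    (hrb : ∀ p : ℕ, p.Prime → p ≤ y → p ∉ F → p ∣ r + b p)
    (hQ : ∀ p : ℕ, p.Prime → p ≤ y → p ∉ F → p ∣ Q) {m : ℕ} (hm : z < m * Q)
    (hk : ∀ k ∈ (range (H + 1)).filter (fun k => ∀ p : ℕ, p.Prime → p ≤ y → p ∉ F →
      ¬ k ≡ b p [MOD p]), k ≠ t₀ → ¬ (m * Q + (r + k)).Prime) :
    Alone G (m * Q + (r + t₀)) := by
  intro p' hp' hne
  by_contra hcon
  push Not at hcon
  rw [abs_le] at hcon
  push_cast at hcon
  obtain ⟨h1, h2⟩ := hcon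
  have h3 : m * Q + r + t₀ ≤ p' + G := by
    have : (m : ℝ) * Q + r + t₀ ≤ p' + G := by linarith
    exact_mod_cast this
  have h4 : p' ≤ m * Q + r + t₀ + G := by
    have : (p' : ℝ) ≤ m * Q + r + t₀ + G := by linarith
    exact_mod_cast this
  obtain ⟨k, hkd⟩ : ∃ k, p' = m * Q + (r + k) := ⟨p' - (m * Q + r), by omega⟩
  have hkH : k ≤ H := by omega
  have hkt : k ≠ t₀ := fun h => hne (by rw [hkd, h])
  by_cases hU : ∀ p : ℕ, p.Prime → p ≤ y → p ∉ F → ¬ k ≡ b p [MOD p]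
  · exact hk k (mem_filter.2 ⟨mem_range.2 (by omega), hU⟩) hkt (hkd ▸ hp')
  · push Not at hU
    obtain ⟨p, hp, hpy, hpF, hkb⟩ := hU
    have h5 : p ∣ p' := by
      rw [hkd]
      have h6 : p ∣ m * Q := (hQ p hp hpy hpF).mul_left m
      have h7 : p ∣ r + k := by
        have h8 : r + k ≡ r + b p [MOD p] := hkb.add_left r
        exact Nat.modEq_zero_iff_dvd.1 (h8.trans (Nat.modEq_zero_iff_dvd.2 (hrb p hp hpy hpF)))
      exact dvd_add h6 h7
    have h6 := (Nat.prime_dvd_prime_iff_eq hp hp').1 h5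
    omega

theorem sum_union_le' {s t : Finset ℕ} (f : ℕ → ℝ) (hf : ∀ i, 0 ≤ f i) :
    ∑ i ∈ s ∪ t, f i ≤ ∑ i ∈ s, f i + ∑ i ∈ t, f i := by
  rw [← sum_union_inter]
  have := sum_nonneg (s := s ∩ t) fun i _ => hf i
  linarith

theorem sum_biUnion_le' (s : Finset ℕ) (t : ℕ → Finset ℕ) (f : ℕ → ℝ) (hf : ∀ i, 0 ≤ f i) :
    ∑ i ∈ s.biUnion t, f i ≤ ∑ a ∈ s, ∑ i ∈ t a, f i := by
  induction s using Finset.induction_on with
  | empty => simp
  | insert a s ha ih =>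
    rw [biUnion_insert, sum_insert ha]
    exact (sum_union_le' f hf).trans (add_le_add_right ih _)

theorem small_facts (cp c₆ : ℝ) (hcp : 0 < cp) (hc₆ : 0 < c₆) : ∀ᶠ z : ℕ in atTop,
    4 * Real.log z ^ 4 ≤ (cp / 2) ^ 2 * z ∧ 1 ≤ c₆ ^ 4 * (z : ℝ) ∧ 10000 ≤ Real.log z := by
  have h1 := (Real.isLittleO_pow_log_id_atTop (n := 4)).bound
    (show (0 : ℝ) < (cp / 2) ^ 2 / 4 by positivity)
  have h2 := (tendsto_natCast_atTop_atTop (R := ℝ)).eventually h1
  have h3 := (Real.tendsto_log_atTop.comp (tendsto_natCast_atTop_atTop (R := ℝ))).eventually_ge_atTop 10000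
  have h4 := (tendsto_natCast_atTop_atTop (R := ℝ)).eventually_ge_atTop (1 / c₆ ^ 4)
  filter_upwards [h2, h3, h4] with z e1 e2 e3
  simp only [Function.comp] at e2
  rw [id, Real.norm_of_nonneg (by positivity), Real.norm_of_nonneg (Nat.cast_nonneg _)] at e1
  rw [div_le_iff₀ (by positivity)] at e3
  exact ⟨by linarith, by linarith, e2⟩

open Classical in
theorem main (A : ℝ) (B : ℕ) : ∃ (K : ℕ) (η : ℝ) (z0 : ℕ), 1 ≤ K ∧ 0 < η ∧ ∀ z : ℕ, z0 ≤ z →
    ∃ q₁ : ℕ, (Real.log z) ^ B < q₁ ∧ ∀ y : ℕ, y = ⌊Real.log z / 64⌋₊ → ∀ q : ℕ, 0 < q → q ^ 32 ≤ z →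
    ¬ q₁ ∣ q → ∑ p ∈ q.primeFactors.filter (fun p => p ≤ y), (1 : ℝ) / p ≤ A →
    ∑ p ∈ q.primeFactors.filter (fun p => p ≤ y ∧ V0 y < Real.log p), (1 : ℝ) / p ≤ A / Real.log y →
    ∀ a : ℕ, a.Coprime q →
    (z : ℝ) ≤ (((Ioc z (z ^ (K + 1))).filter (fun p => p.Prime ∧ p ≡ a [MOD q] ∧
      Alone (η * RR y) p)).card : ℝ) ^ 2 := by
  obtain ⟨K, cp, hK, hcp, z1, HP⟩ := Pool.Agent.R529.FT.page B
  obtain ⟨C5, z2, hC5, HPS⟩ := pair_sum K hK
  obtain ⟨c4, hc4, HR⟩ := ratio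
  obtain ⟨c₆, hc₆⟩ : ∃ c₆ : ℝ, c₆ = cp / 4 * c4 := ⟨_, rfl⟩
  have hc₆0 : 0 < c₆ := by rw [hc₆]; positivity
  obtain ⟨η, hη, y₀, hcov⟩ := cov (|A| + 1) (|A| + 1) (64 * c₆ / C5) (by positivity) (by positivity)
  have hev := small_facts cp c₆ hcp hc₆0
  obtain ⟨z3, hz3⟩ := eventually_atTop.1 hev
  have hev2 : ∀ᶠ z : ℕ in atTop, y₀ ≤ ⌊Real.log z / 64⌋₊ := by
    have h1 : Tendsto (fun z : ℕ => Real.log z / 64) atTop atTop :=
      (Real.tendsto_log_atTop.comp tendsto_natCast_atTop_atTop).atTop_div_const (by norm_num)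
    exact (tendsto_nat_floor_atTop.comp h1).eventually_ge_atTop y₀
  obtain ⟨z4, hz4⟩ := eventually_atTop.1 hev2
  refine ⟨K, η, max (max z1 z2) (max z3 z4) + 3, hK, hη, fun z hz => ?_⟩
  have hzz : z1 ≤ z ∧ z2 ≤ z ∧ z3 ≤ z ∧ z4 ≤ z ∧ 3 ≤ z := by omega
  obtain ⟨hz1, hz2, hz3', hz4', hzt⟩ := hzz
  obtain ⟨s1, s2, s3⟩ := hz3 z hz3'
  have hyy := hz4 z hz4'
  obtain ⟨q₁, hq₁, hq₁L, HPq⟩ := HP z hz1
  refine ⟨q₁, hq₁L, fun y hyd q hq hqz hqq hqA hqB a ha => ?_⟩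
  rw [← hyd] at hyy
  obtain ⟨f1, f2, f3, hcov'⟩ := hcov y hyy
  have hz0 : (0 : ℝ) < z := by exact_mod_cast (by omega : 0 < z)
  have hlz0 : 0 < Real.log z := by linarith
  have hly0 : 0 < Real.log y := by linarith
  have hy0 : (0 : ℝ) < y := by exact_mod_cast (by omega : 0 < y)
  have hy1 : (y : ℝ) ≤ Real.log z / 64 := by rw [hyd]; exact Nat.floor_le (by positivity)
  have hy2 : Real.log z / 128 ≤ y := by
    have h1 : Real.log z / 64 < (y : ℝ) + 1 := by rw [hyd]; exact Nat.lt_floor_add_one _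
    linarith
  have hyz : y < z := by
    have h1 : Real.log z ≤ z := (Real.log_le_sub_one_of_pos hz0).trans (by linarith)
    have h2 : (y : ℝ) < z := by linarith
    exact_mod_cast h2
  -- the exceptional prime
  obtain ⟨p₀, hp₀, hex⟩ := leave_out (by omega) hq.ne' hqq
  -- the excluded primes
  obtain ⟨F, hF⟩ : ∃ F : Finset ℕ, F = (Icc 1 y).filter (fun p => p.Prime ∧ (p ∣ q ∨ p = p₀)) := ⟨_, rfl⟩
  have hFm : ∀ p, p ∈ F ↔ p.Prime ∧ p ≤ y ∧ (p ∣ q ∨ p = p₀) := by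
    intro p
    rw [hF, mem_filter, mem_Icc]
    constructor
    · rintro ⟨⟨_, h1⟩, h2, h3⟩
      exact ⟨h2, h1, h3⟩
    · rintro ⟨h2, h1, h3⟩
      exact ⟨⟨h2.one_lt.le, h1⟩, h2, h3⟩
  have hFn : ∀ p, p.Prime → p ≤ y → (p ∉ F ↔ ¬ p ∣ q ∧ p ≠ p₀) := by
    intro p hp hpy
    rw [hFm]
    constructor
    · intro h
      exact ⟨fun h1 => h ⟨hp, hpy, Or.inl h1⟩, fun h1 => h ⟨hp, hpy, Or.inr h1⟩⟩
    · rintro ⟨h1, h2⟩ ⟨_, _, h3 | h3⟩
      · exact h1 h3
      · exact h2 h3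
  have hp₀1 : (1 : ℝ) / p₀ ≤ 1 := by
    rw [div_le_one (by exact_mod_cast hp₀.pos)]
    exact_mod_cast hp₀.one_lt.le
  have hFs : ∑ p ∈ F, (1 : ℝ) / p ≤ |A| + 1 := by
    have h1 : F ⊆ q.primeFactors.filter (fun p => p ≤ y) ∪ {p₀} := by
      intro p hp
      rw [hFm] at hp
      rw [mem_union, mem_filter, Nat.mem_primeFactors, mem_singleton]
      rcases hp.2.2 with h | h
      · exact Or.inl ⟨⟨hp.1, h, hq.ne'⟩, hp.2.1⟩
      · exact Or.inr h
    have h2 := sum_le_sum_of_subset_of_nonneg (f := fun p : ℕ => (1 : ℝ) / p) h1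
      (fun _ _ _ => by positivity)
    have h3 : ∑ p ∈ q.primeFactors.filter (fun p => p ≤ y) ∪ {p₀}, (1 : ℝ) / p ≤
        ∑ p ∈ q.primeFactors.filter (fun p => p ≤ y), (1 : ℝ) / p + ∑ p ∈ ({p₀} : Finset ℕ), (1 : ℝ) / p := by
      rw [← sum_union_inter]
      have : 0 ≤ ∑ p ∈ q.primeFactors.filter (fun p => p ≤ y) ∩ {p₀}, (1 : ℝ) / p :=
        sum_nonneg fun _ _ => by positivity
      linarith
    rw [sum_singleton] at h3
    have := le_abs_self A
    linarith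
  have hFt : ∑ p ∈ F.filter (fun p : ℕ => V0 y < Real.log p), (1 : ℝ) / p ≤ (|A| + 1) / Real.log y := by
    have h1 : F.filter (fun p : ℕ => V0 y < Real.log p) ⊆
        q.primeFactors.filter (fun p => p ≤ y ∧ V0 y < Real.log p) ∪
          ({p₀} : Finset ℕ).filter (fun p : ℕ => V0 y < Real.log p) := by
      intro p hp
      rw [mem_filter, hFm] at hp
      rw [mem_union, mem_filter, mem_filter, Nat.mem_primeFactors, mem_singleton]
      rcases hp.1.2.2 with h | h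
      · exact Or.inl ⟨⟨hp.1.1, h, hq.ne'⟩, hp.1.2.1, hp.2⟩
      · exact Or.inr ⟨h, hp.2⟩
    have h2 := sum_le_sum_of_subset_of_nonneg (f := fun p : ℕ => (1 : ℝ) / p) h1
      (fun _ _ _ => by positivity)
    have h3 : ∑ p ∈ q.primeFactors.filter (fun p => p ≤ y ∧ V0 y < Real.log p) ∪
          ({p₀} : Finset ℕ).filter (fun p : ℕ => V0 y < Real.log p), (1 : ℝ) / p ≤
        ∑ p ∈ q.primeFactors.filter (fun p => p ≤ y ∧ V0 y < Real.log p), (1 : ℝ) / p +
          ∑ p ∈ ({p₀} : Finset ℕ).filter (fun p : ℕ => V0 y < Real.log p), (1 : ℝ) / p := by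
      rw [← sum_union_inter]
      have : 0 ≤ ∑ p ∈ q.primeFactors.filter (fun p => p ≤ y ∧ V0 y < Real.log p) ∩
          ({p₀} : Finset ℕ).filter (fun p : ℕ => V0 y < Real.log p), (1 : ℝ) / p :=
        sum_nonneg fun _ _ => by positivity
      linarith
    have h4 : ∑ p ∈ ({p₀} : Finset ℕ).filter (fun p : ℕ => V0 y < Real.log p), (1 : ℝ) / p ≤
        1 / Real.log y := by
      by_cases hp : V0 y < Real.log p₀
      · rw [filter_singleton, if_pos hp, sum_singleton]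
        apply one_div_le_one_div_of_le hly0
        have hp00 : (0 : ℝ) < p₀ := by exact_mod_cast hp₀.pos
        have h5 := Real.exp_le_exp.2 hp.le
        rw [Real.exp_log hp00] at h5
        have h6 : Real.log y ≤ Real.log y ^ 4 := le_self_pow₀ (by linarith) (by norm_num)
        linarith
      · rw [filter_singleton, if_neg hp, sum_empty]
        positivity
    have h5 : A / Real.log y ≤ |A| / Real.log y := div_le_div_of_nonneg_right (le_abs_self A) hly0.le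
    rw [add_div]
    linarith
  obtain ⟨H, G, t₀, b, hHy, hyt, ht₀, hGt, htH, hηG, hb, hU⟩ :=
    hcov' F (fun p hp => ((hFm p).1 hp).1) hFs hFt
  obtain ⟨U, hUd⟩ : ∃ U, U = (range (H + 1)).filter (fun k => ∀ p : ℕ, p.Prime → p ≤ y → p ∉ F →
        ¬ k ≡ b p [MOD p]) := ⟨_, rfl⟩
  rw [← hUd] at hU
  obtain ⟨r, hrQ, hra, hrb⟩ := crt y q p₀ t₀ a hq b (fun p hp hpy h1 h2 =>
    (hb p hp hpy ((hFn p hp hpy).2 ⟨h1, h2⟩)).1)
  obtain ⟨Q, hQd⟩ : ∃ Q, Q = q * MM y q p₀ := ⟨_, rfl⟩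
  rw [← hQd] at hrQ
  have hQ0 : 0 < Q := by rw [hQd]; exact Nat.mul_pos hq (MM_pos y q p₀)
  have hQr : (0 : ℝ) < Q := by exact_mod_cast hQ0
  have hφ0 : (0 : ℝ) < Q.totient := by exact_mod_cast Nat.totient_pos.2 hQ0
  have hQy : ∀ p : ℕ, p.Prime → p ≤ y → p ≠ p₀ → p ∣ Q := by
    intro p hp hpy hp0
    rw [hQd]
    by_cases h : p ∣ q
    · exact h.mul_right _
    · exact ((MM_dvd hp).2 ⟨hpy, h, hp0⟩).mul_left _
  have hQF : ∀ p : ℕ, p.Prime → p ≤ y → p ∉ F → p ∣ Q := fun p hp hpy hpF =>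
    hQy p hp hpy ((hFn p hp hpy).1 hpF).2
  have hrF : ∀ p : ℕ, p.Prime → p ≤ y → p ∉ F → p ∣ r + b p := fun p hp hpy hpF =>
    hrb p hp hpy ((hFn p hp hpy).1 hpF).1 ((hFn p hp hpy).1 hpF).2
  have hl4 : Real.log 4 ≤ 1.3863 := by
    have := Real.log_two_lt_d9
    rw [show (4 : ℝ) = 2 ^ 2 by norm_num, Real.log_pow]
    push_cast
    linarith
  have hQ16 : Q ^ 16 ≤ z := by
    have h1 : (MM y q p₀) ^ 32 ≤ z := by
      have h1 : (MM y q p₀) ^ 32 ≤ 4 ^ (32 * y) := by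
        calc (MM y q p₀) ^ 32 ≤ (4 ^ y) ^ 32 := Nat.pow_le_pow_left (MM_le y q p₀) 32
          _ = 4 ^ (32 * y) := by rw [← pow_mul, mul_comm]
      have h2 : ((4 : ℝ)) ^ (32 * y) ≤ z := by
        rw [← Real.log_le_log_iff (by positivity) hz0, Real.log_pow]
        push_cast
        have h3 : (32 * (y : ℝ)) * Real.log 4 ≤ (32 * (y : ℝ)) * 1.3863 :=
          mul_le_mul_of_nonneg_left hl4 (by positivity)
        linarith
      exact h1.trans (by exact_mod_cast h2)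
    have h2 : (Q ^ 16) ^ 2 ≤ z ^ 2 := by
      calc (Q ^ 16) ^ 2 = q ^ 32 * (MM y q p₀) ^ 32 := by rw [hQd]; ring
        _ ≤ z * z := Nat.mul_le_mul hqz h1
        _ = z ^ 2 := by ring
    exact (Nat.pow_le_pow_iff_left (by norm_num : (2 : ℕ) ≠ 0)).1 h2
  have hQ4 : ((Q : ℝ) ^ 2) ^ 2 ≤ z := by
    have h1 : Q ^ 4 ≤ Q ^ 16 := Nat.pow_le_pow_right hQ0 (by norm_num)
    have h2 : ((Q : ℝ) ^ 2) ^ 2 = ((Q ^ 4 : ℕ) : ℝ) := by push_cast; ring
    rw [h2]
    exact_mod_cast h1.trans hQ16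
  -- large prime factors of `Q`
  have hQs : ∑ p ∈ Q.primeFactors.filter (fun p => y < p), (1 : ℝ) / p ≤ 1 / 2 := by
    have h1 := big_card (q := Q) (y := y) hQ0
    have h2 : Real.log Q ≤ Real.log z / 16 := by
      have h3 := Real.log_le_log (by positivity) (show ((Q : ℝ) ^ 16) ≤ z by exact_mod_cast hQ16)
      rw [Real.log_pow] at h3
      push_cast at h3
      linarith
    refine (sum_le_card_nsmul _ _ (1 / (y : ℝ)) fun p hp => ?_).trans ?_
    · exact one_div_le_one_div_of_le hy0 (by exact_mod_cast (mem_filter.1 hp).2.le)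
    · rw [nsmul_eq_mul]
      obtain ⟨N, hN⟩ : ∃ N : ℝ, N = ((Q.primeFactors.filter (fun p => y < p)).card : ℝ) := ⟨_, rfl⟩
      rw [← hN] at h1 ⊢
      have hN0 : 0 ≤ N := by rw [hN]; positivity
      rw [mul_one_div, div_le_iff₀ hy0]
      have h4 : N * 100 ≤ N * Real.log y := mul_le_mul_of_nonneg_left f1 hN0
      nlinarith
  -- coprimality
  have hco : (r + t₀).Coprime Q := by
    apply Nat.Coprime.symm
    apply Nat.coprime_of_dvd
    intro p hp hpQ hph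
    rw [hQd, hp.dvd_mul] at hpQ
    rcases hpQ with h | h
    · have h1 : a ≡ 0 [MOD p] := ((hra.of_dvd h).symm).trans (Nat.modEq_zero_iff_dvd.2 hph)
      have h2 := Nat.dvd_gcd (Nat.modEq_zero_iff_dvd.1 h1) h
      rw [ha] at h2
      exact hp.one_lt.ne' (Nat.dvd_one.1 h2)
    · obtain ⟨h1, h2, h3⟩ := (MM_dvd hp).1 h
      have h4 := hrb p hp h1 h2 h3
      refine (hb p hp h1 ((hFn p hp h1).2 ⟨h2, h3⟩)).2 ?_
      have h5 : r + t₀ ≡ r + b p [MOD p] :=
        (Nat.modEq_zero_iff_dvd.2 hph).trans (Nat.modEq_zero_iff_dvd.2 h4).symm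
      exact Nat.ModEq.add_left_cancel' r h5
  have hne : ¬ q₁ ∣ Q := by
    rw [hQd]
    exact hex _ (MM_pos y q p₀).ne' (fun h => ((MM_dvd hp₀).1 h).2.2 rfl)
  have hP1 := HPq Q (r + t₀) hQ0 hQ16 hne hco
  have hH1 : 1 ≤ H := by omega
  have hHr : (H : ℝ) ≤ Real.log z ^ 2 := by
    have h1 : (H : ℝ) ≤ (y : ℝ) ^ 2 := by exact_mod_cast hHy
    have h2 : (y : ℝ) ^ 2 ≤ Real.log z ^ 2 := pow_le_pow_left₀ hy0.le (by linarith) 2
    linarith
  have hsm : ((Q + H : ℕ) : ℝ) / z ≤ cp / 2 / (Q.totient : ℝ) := by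
    rw [div_le_div_iff₀ hz0 hφ0]
    have h1 : (Q.totient : ℝ) ≤ Q := by exact_mod_cast Nat.totient_le Q
    have h2 : ((Q + H : ℕ) : ℝ) ≤ 2 * (Q * H) := by
      have h3 : Q + H ≤ 2 * (Q * H) := by nlinarith
      exact_mod_cast h3
    have h3 : 2 * (Q * H : ℝ) * Q ≤ cp / 2 * z := by
      have h4 : (2 * (Q * H : ℝ) * Q) ^ 2 ≤ (cp / 2 * z) ^ 2 := by
        have h5 : (2 * (Q * H : ℝ) * Q) ^ 2 = 4 * (H : ℝ) ^ 2 * ((Q : ℝ) ^ 2) ^ 2 := by ring
        have h6 : (H : ℝ) ^ 2 ≤ Real.log z ^ 4 := by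
          calc (H : ℝ) ^ 2 ≤ (Real.log z ^ 2) ^ 2 := pow_le_pow_left₀ (Nat.cast_nonneg H) hHr 2
            _ = _ := by ring
        rw [h5]
        calc 4 * (H : ℝ) ^ 2 * ((Q : ℝ) ^ 2) ^ 2 ≤ 4 * Real.log z ^ 4 * z := by gcongr
          _ ≤ (cp / 2) ^ 2 * z * z := mul_le_mul_of_nonneg_right s1 hz0.le
          _ = _ := by ring
      exact le_of_sq_le_sq h4 (by positivity)
    calc ((Q + H : ℕ) : ℝ) * Q.totient ≤ 2 * (Q * H) * Q := mul_le_mul h2 h1 (by positivity) (by positivity)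
      _ ≤ _ := h3
  have hfirst := Pool.Agent.R529.FT.first (H := Q + H) (by omega) hQ0 (by omega) hP1 hsm
  have hrat := HR y p₀ Q (by omega) hp₀ hQ0 hQy
  -- the good rows
  obtain ⟨M, hM⟩ : ∃ M, M = (Icc 1 (z ^ K)).filter
    (fun m => z < m * Q ∧ m * Q ≤ z ^ K ∧ (m * Q + (r + t₀)).Prime) := ⟨_, rfl⟩
  rw [← hM] at hfirst
  obtain ⟨Gd, hGd⟩ : ∃ Gd, Gd = M.filter (fun m => ∀ k ∈ U, k ≠ t₀ → ¬ (m * Q + (r + k)).Prime) :=
    ⟨_, rfl⟩
  have hbad : ∀ k ∈ U.erase t₀, ∑ m ∈ M.filter (fun m => (m * Q + (r + k)).Prime), 1 / (m : ℝ) ≤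
      C5 * (Real.log y ^ 2 / Real.log z) := by
    intro k hk
    rw [mem_erase, hUd, mem_filter, mem_range] at hk
    have h1 := HPS z y Q (r + t₀) (r + k) hz2 (by omega) (by linarith) hQ16 hQ0 hQs
      (by omega) (by omega) (by omega)
    refine le_trans (sum_le_sum_of_subset_of_nonneg (fun m hm => ?_) fun _ _ _ => by positivity) h1
    rw [hM, mem_filter, mem_filter] at hm
    rw [mem_filter]
    exact ⟨hm.1.1, hm.1.2.1, hm.1.2.2.2, hm.2⟩
  have hcover : ∑ m ∈ M, 1 / (m : ℝ) ≤ ∑ m ∈ Gd, 1 / (m : ℝ) +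
      ∑ k ∈ U.erase t₀, ∑ m ∈ M.filter (fun m => (m * Q + (r + k)).Prime), 1 / (m : ℝ) := by
    have h1 : M ⊆ Gd ∪ (U.erase t₀).biUnion (fun k => M.filter (fun m => (m * Q + (r + k)).Prime)) := by
      intro m hm
      rw [mem_union, mem_biUnion]
      by_cases h : ∀ k ∈ U, k ≠ t₀ → ¬ (m * Q + (r + k)).Prime
      · left
        rw [hGd, mem_filter]
        exact ⟨hm, h⟩
      · right
        push Not at h
        obtain ⟨k, hk, hkt, hkp⟩ := h
        exact ⟨k, mem_erase.2 ⟨hkt, hk⟩, mem_filter.2 ⟨hm, hkp⟩⟩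
    have h2 := sum_le_sum_of_subset_of_nonneg (f := fun m : ℕ => 1 / (m : ℝ)) h1
      (fun _ _ _ => by positivity)
    have h3 := sum_union_le' (s := Gd)
      (t := (U.erase t₀).biUnion (fun k => M.filter (fun m => (m * Q + (r + k)).Prime)))
      (fun m : ℕ => 1 / (m : ℝ)) (fun _ => by positivity)
    have h4 := sum_biUnion_le' (U.erase t₀)
      (fun k => M.filter (fun m => (m * Q + (r + k)).Prime)) (fun m : ℕ => 1 / (m : ℝ))
      (fun _ => by positivity)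
    linarith
  have hsum : c₆ * Real.log y ≤ ∑ m ∈ Gd, 1 / (m : ℝ) := by
    have h1 : ∑ k ∈ U.erase t₀, ∑ m ∈ M.filter (fun m => (m * Q + (r + k)).Prime), 1 / (m : ℝ) ≤
        U.card * (C5 * (Real.log y ^ 2 / Real.log z)) := by
      refine (sum_le_card_nsmul _ _ _ hbad).trans ?_
      rw [nsmul_eq_mul]
      apply mul_le_mul_of_nonneg_right _ (by positivity)
      exact_mod_cast card_le_card (erase_subset _ _)
    have h2 : (U.card : ℝ) * (C5 * (Real.log y ^ 2 / Real.log z)) ≤ c₆ * Real.log y := by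
      calc (U.card : ℝ) * (C5 * (Real.log y ^ 2 / Real.log z)) ≤
          64 * c₆ / C5 * (y / Real.log y) * (C5 * (Real.log y ^ 2 / Real.log z)) :=
            mul_le_mul_of_nonneg_right hU (by positivity)
        _ = c₆ * Real.log y * (64 * y / Real.log z) := by field_simp
        _ ≤ c₆ * Real.log y * 1 := by
            apply mul_le_mul_of_nonneg_left _ (by positivity)
            rw [div_le_one hlz0]
            linarith
        _ = _ := mul_one _
    have h3 : 2 * (c₆ * Real.log y) ≤ cp / 2 * ((Q : ℝ) / Q.totient) := by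
      calc 2 * (c₆ * Real.log y) = cp / 2 * (c4 * Real.log y) := by rw [hc₆]; ring
        _ ≤ _ := mul_le_mul_of_nonneg_left hrat (by positivity)
    linarith
  -- the number of good rows
  have hcard : c₆ * z ≤ (Gd.card : ℝ) * Q := by
    have h1 : ∑ m ∈ Gd, 1 / (m : ℝ) ≤ Gd.card * (Q / z) := by
      refine (sum_le_card_nsmul _ _ ((Q : ℝ) / z) fun m hm => ?_).trans (le_of_eq (nsmul_eq_mul _ _))
      rw [hGd, mem_filter, hM, mem_filter, mem_Icc] at hm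
      have hm0 : (0 : ℝ) < m := by exact_mod_cast hm.1.1.1
      rw [div_le_div_iff₀ hm0 hz0, one_mul]
      have : z < m * Q := hm.1.2.1
      have h3 : (z : ℝ) < m * Q := by exact_mod_cast this
      linarith
    have h2 : c₆ * 1 ≤ c₆ * Real.log y := mul_le_mul_of_nonneg_left (by linarith) hc₆0.le
    have h3 : c₆ ≤ Gd.card * (Q / z) := by linarith
    rw [← mul_div_assoc, le_div_iff₀ hz0] at h3
    exact h3
  have hGd2 : (z : ℝ) ≤ (Gd.card : ℝ) ^ 2 := by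
    have h1 : (Q : ℝ) ^ 2 ≤ c₆ ^ 2 * z := by
      have h2 : ((Q : ℝ) ^ 2) ^ 2 ≤ (c₆ ^ 2 * z) ^ 2 := by
        calc ((Q : ℝ) ^ 2) ^ 2 ≤ 1 * z := by rw [one_mul]; exact hQ4
          _ ≤ (c₆ ^ 4 * z) * z := mul_le_mul_of_nonneg_right s2 hz0.le
          _ = _ := by ring
      exact le_of_sq_le_sq h2 (by positivity)
    have h2 : (c₆ * z) ^ 2 ≤ ((Gd.card : ℝ) * Q) ^ 2 := pow_le_pow_left₀ (by positivity) hcard 2
    have h3 : c₆ ^ 2 * z * z ≤ (Gd.card : ℝ) ^ 2 * (c₆ ^ 2 * z) := by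
      calc c₆ ^ 2 * z * z = (c₆ * z) ^ 2 := by ring
        _ ≤ ((Gd.card : ℝ) * Q) ^ 2 := h2
        _ = (Gd.card : ℝ) ^ 2 * (Q : ℝ) ^ 2 := by ring
        _ ≤ _ := mul_le_mul_of_nonneg_left h1 (by positivity)
    have h4 : 0 < c₆ ^ 2 * (z : ℝ) := by positivity
    nlinarith
  refine hGd2.trans (pow_le_pow_left₀ (by positivity) ?_ 2)
  -- from rows to primes
  have himg : Gd.image (fun m => m * Q + (r + t₀)) ⊆ (Ioc z (z ^ (K + 1))).filter (fun p => p.Prime ∧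
      p ≡ a [MOD q] ∧ Alone (η * RR y) p) := by
    intro p hp
    obtain ⟨m, hm, rfl⟩ := mem_image.1 hp
    rw [hGd, mem_filter, hM, mem_filter, mem_Icc] at hm
    obtain ⟨⟨⟨m1, m2⟩, m3, m4, m5⟩, m6⟩ := hm
    rw [mem_filter, mem_Ioc]
    refine ⟨⟨by omega, ?_⟩, m5, ?_, ?_⟩
    · have h1 : r + t₀ ≤ Q + H := by omega
      have h2 : Q + H ≤ z := by
        have h3 : ((Q + H : ℕ) : ℝ) ≤ z := by
          rw [div_le_iff₀ hz0] at hsm
          have h4 : cp / 2 / (Q.totient : ℝ) ≤ cp / 2 := div_le_self (by positivity) (by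
            exact_mod_cast Nat.totient_pos.2 hQ0)
          push_cast
          have h5 : (Q : ℝ) ≤ z / 2 := by
            have h6 : (Q : ℝ) ^ 2 ≤ (z / 2) ^ 2 := by
              have h7 : (Q : ℝ) ^ 2 ≤ ((Q : ℝ) ^ 2) ^ 2 :=
                le_self_pow₀ (one_le_pow₀ (by exact_mod_cast hQ0)) (by norm_num)
              have h8 : (4 : ℝ) ≤ z := by
                have := (Real.log_le_sub_one_of_pos hz0)
                linarith
              nlinarith
            exact le_of_sq_le_sq h6 (by positivity)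
          have h6 : (H : ℝ) ≤ z / 2 := by
            have h7 : Real.log z ^ 3 / 6 ≤ z := by
              have h8 := Real.pow_div_factorial_le_exp (Real.log z) hlz0.le 3
              rw [Real.exp_log hz0] at h8
              simpa [Nat.factorial] using h8
            have h8 : Real.log z ^ 2 * 10000 ≤ Real.log z ^ 3 := by
              calc Real.log z ^ 2 * 10000 ≤ Real.log z ^ 2 * Real.log z := by gcongr
                _ = _ := by ring
            nlinarith [sq_nonneg (Real.log z)]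
          linarith
        exact_mod_cast h3
      have h3 : 2 * z ^ K ≤ z ^ (K + 1) := by
        rw [pow_succ, mul_comm]
        exact Nat.mul_le_mul_left _ (by omega)
      have h4 : z ≤ z ^ K := Nat.le_self_pow (by omega) z
      omega
    · have h1 : m * Q + (r + t₀) ≡ 0 + (r + t₀) [MOD q] := by
        refine Nat.ModEq.add_right _ (Nat.modEq_zero_iff_dvd.2 ?_)
        rw [hQd]
        exact (Dvd.intro _ rfl : q ∣ q * MM y q p₀).mul_left m
      rw [zero_add] at h1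
      exact h1.trans hra
    · have h1 := one_row (b := b) (F := F) hGt htH hyz hrF hQF m3 (by rw [← hUd]; exact m6)
      intro p' hp' hne'
      exact lt_of_le_of_lt hηG (h1 p' hp' hne')
  have hinj : Function.Injective (fun m => m * Q + (r + t₀)) := by
    intro m m' h
    simp only at h
    exact Nat.eq_of_mul_eq_mul_right hQ0 (by omega)
  have h1 := card_le_card himg
  rw [card_image_of_injective _ hinj] at h1
  exact_mod_cast h1

end Pool.Agent.R529.LG
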